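import Mathlib
import Pool.Agent.L7h72.NP.Main

set_option autoImplicit false

/-!
# Record prime gaps around the values of all noncomposite polynomials in two variables

Let `f(Z) = log Z (log₂ Z)² log₄ Z / (log₃ Z)²` (iterated natural logarithms), the size of the largest gaps
between consecutive primes that are known to occur up to `Z`.

For every `k` there is `c > 0` such that for all large `Z` every square of side `Z` of the plane contains an
integer point `(x, y)` with the following property: for ALL polynomials `F` in two variables with integral
coefficients, of degree at most `k` and with coefficients at most `k` in absolute value, such that `F - t` is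
irreducible over the complex numbers for at least one complex number `t` (that is, `F` is not constant and is not
of the form `g(H)` with `deg g ≥ 2`), every integer at distance at most `c f(Z)` from `F(x, y)` has a prime factor
`p ≤ Z ^ (1/10)`.

Method.  The starting point is the record covering sieve for functions of several variables (helper256, helper378,
helper837).  There the colours (polynomial, surviving shift) must have the expected density modulo all the large
primes, which holds for special polynomials only.  Here a bounded number of primes is given up for each colour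
(`mcov2`, `gen4`, `crit4`): a noncomposite `F` has a polynomial `D ≠ 0` of one variable such that `F - r` is
absolutely irreducible modulo `p` as soon as `p` does not divide `D(r)` (`spread`: an irreducible special fibre
forces an irreducible generic fibre; theorem of Bertini and Noether), and `D(r)` has boundedly many prime factors
above `(log Z)²`.  The densities come from the Weil bound for absolutely irreducible plane curves (helper410), the
coincidences of two colours from a resultant.
-/

namespace Pool.Agent.Results.MP_3bc45c_nt.NoncompositePolynomials

/-- The record scale `f(Z) = log Z (log₂ Z)² log₄ Z / (log₃ Z)²` (iterated natural logarithms). -/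
noncomputable def f (Z : ℝ) : ℝ :=
  Real.log Z * (Real.log (Real.log Z)) ^ 2 * Real.log (Real.log (Real.log (Real.log Z))) /
    (Real.log (Real.log (Real.log Z))) ^ 2

/-- For every `k` there is `c > 0` such that for all large `Z` every square `(M, M + Z] × (N, N + Z]` contains an
integer point `(x, y)` such that for every polynomial `F ∈ ℤ[X, Y]` of total degree at most `k` and with all
coefficients at most `k` in absolute value for which `F - t` is irreducible over `ℂ` for some complex number `t`,
every integer `n` at distance at most `c f(Z)` from `F(x, y)` has a prime factor `p ≤ Z ^ (1/10)`. -/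
theorem result (k : ℕ) : ∃ c : ℝ, 0 < c ∧ ∃ Z₀ : ℝ, ∀ Z : ℕ, Z₀ ≤ Z → ∀ M N : ℤ,
    ∃ x y : ℤ, (M < x ∧ x ≤ M + Z) ∧ (N < y ∧ y ≤ N + Z) ∧
      ∀ F : MvPolynomial (Fin 2) ℤ, F.totalDegree ≤ k → (∀ m, |F.coeff m| ≤ k) →
        (∃ t : ℂ, Irreducible (MvPolynomial.map (Int.castRingHom ℂ) F - MvPolynomial.C t)) →
        ∀ n : ℤ, |(n : ℝ) - (MvPolynomial.eval ![x, y] F : ℤ)| ≤ c * f Z →
          ∃ p : ℕ, p.Prime ∧ (p : ℝ) ≤ (Z : ℝ) ^ (1 / 10 : ℝ) ∧ (p : ℤ) ∣ n := by
  obtain ⟨c, hc, Z₀, h⟩ := Pool.Agent.L7h72.NP.all_poly k
  refine ⟨c, hc, Z₀, fun Z hZ M N => ?_⟩
  obtain ⟨x, hx, hF⟩ := h Z hZ ![M, N]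
  have h0 := hx 0
  have h1 := hx 1
  have e : x = ![x 0, x 1] := by
    funext i
    fin_cases i
    · rfl
    · rfl
  refine ⟨x 0, x 1, h0, h1, fun F hF1 hF2 hF3 n hn => ?_⟩
  rw [← e] at hn
  exact hF F hF1 hF2 hF3 n hn

end Pool.Agent.Results.MP_3bc45c_nt.NoncompositePolynomials
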