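import Pool.Agent.L7h72.NQ.MainA
import Pool.Agent.N542.PT.Main
import Pool.Agent.N542.PB.GenPoly

set_option autoImplicit false

/-!
# Record prime gaps around all noncomposite polynomials in the integral parts of smooth functions of a prime number

Let `R(Z) = log Z (log₂ Z)² log₄ Z / (log₃ Z)²`, the size of the largest gaps between primes that are known to
occur up to `Z`. Let `f_1, …, f_r` be smoothly varying functions (Bingham, Goldie, Teugels) with real indices
`c_j ∉ {0, 1, 2, …}`, for instance `t ^ (c_j)` plus a combination of lower real powers, `u_j` real numbers and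
`v_j = c_j + u_j`. The two coordinates are `x_i(p) = α_{φ(i)} f_{φ(i)}(p + σ(i)) + P_i(p)`, `i = 1, 2`: either two
different functions with distinct positive `v_j` are used, or one function with `v_j > 1` at two different places
`p + σ(1)`, `p + σ(2)`.

For every `k` and `0 < ε ≤ 1 / 2` there are `κ, δ > 0` such that for all large `Z`, for all real `α_j` with
`Z ^ (u_j - δ) ≤ |α_j| ≤ Z ^ (u_j + δ)` and all real polynomials `P_i` of degree at most `D`, at least
`Z ^ (1 - ε)` primes `p ≡ b (mod d)` of `(Z, (1 + ε) Z]` have the following property: for ALL polynomials `F` in two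
variables with integral coefficients, of degree at most `k` and with coefficients at most `k` in absolute value,
such that `F - t` is irreducible over the complex numbers for at least one complex number `t` (that is, `F` is not
constant and not of the form `g(H)` with `deg g ≥ 2`), every integer at distance at most `κ R(Z)` from
`F(⌊x_1(p)⌋, ⌊x_2(p)⌋)` has a prime factor `≤ Z ^ ε`.

The starting file `MP_7b323f_nt.PolynomialsAtSmoothValues` (helper542) has this for finite families of
polynomials that are balanced modulo ALL the large primes; this holds for special polynomials only (for instance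
those of weight one), while for a general noncomposite polynomial, such as `y² - x³`, every value has a few
primes at which it is not taken with the expected frequency. Here the covering sieve for well distributed families
of integer vectors (`Pool.Agent.N542.PT`) is carried out with a bounded number of exceptional primes for every
value (`Pool.Agent.L7h72.NQ`); the densities and the coincidences of the values come from
`Pool.Agent.L7h72.NP` (theorem of Bertini and Noether, Weil bound, resultants).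
-/

namespace Pool.Agent.Results.MP_3bc45c_nt.NoncompositeSmoothPrimes

open Finset Filter Topology

/-- the record function `log x (log₂ x)² log₄ x / (log₃ x)²` -/
noncomputable def R (x : ℝ) : ℝ :=
  Real.log x * (Real.log (Real.log x)) ^ 2 * Real.log (Real.log (Real.log (Real.log x))) /
    (Real.log (Real.log (Real.log x))) ^ 2

/-- `f` is smoothly varying with index `c`: it is positive and has derivatives of every order near
infinity, and `t ^ j f⁽ʲ⁾(t) / f(t)` tends to `c (c - 1) ⋯ (c - j + 1)` for every `j`. -/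
def SmoothlyVarying (c : ℝ) (f : ℝ → ℝ) : Prop :=
  (∀ᶠ t in atTop, 0 < f t) ∧
  (∀ j : ℕ, ∀ᶠ t in atTop, DifferentiableAt ℝ (iteratedDeriv j f) t) ∧
  ∀ j : ℕ, Tendsto (fun t => t ^ j * iteratedDeriv j f t / f t) atTop
    (𝓝 (∏ i ∈ range j, (c - i)))

/-- The main theorem. -/
theorem result {r : ℕ} (k : ℕ)
    (c u : Fin r → ℝ) (f : Fin r → ℝ → ℝ) (hcn : ∀ j, ∀ n : ℕ, c j ≠ n)
    (hf : ∀ j, SmoothlyVarying (c j) (f j))
    (φ : Fin 2 → Fin r) (σ : Fin 2 → ℤ) (hφσ : ∀ i l, φ i = φ l → σ i = σ l → i = l)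
    (hφ : ∀ j, ((univ.filter (fun i => φ i = j)).card : ℝ) < c j + u j + 1)
    (hv : (∀ i j, i ≠ j → ∀ m : ℤ, (c i + u i) - (c j + u j) ≠ m) ∨
      (Function.Injective φ ∧ ∀ i j, i ≠ j → c i + u i ≠ c j + u j))
    (D d b : ℕ) (hd : 0 < d) (hb : b.Coprime d) (ε : ℝ) (hε : 0 < ε) (hε1 : ε ≤ 1 / 2) :
    ∃ κ δ : ℝ, 0 < κ ∧ 0 < δ ∧ ∀ᶠ Z : ℝ in atTop, ∀ (α : Fin r → ℝ) (P : Fin 2 → Polynomial ℝ),
      (∀ j, Z ^ (u j - δ) ≤ |α j| ∧ |α j| ≤ Z ^ (u j + δ)) → (∀ i, (P i).natDegree ≤ D) →
      ∃ G : Finset ℕ, Z ^ (1 - ε) ≤ (G.card : ℝ) ∧ ∀ p ∈ G, p.Prime ∧ p ≡ b [MOD d] ∧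
        Z < p ∧ (p : ℝ) ≤ (1 + ε) * Z ∧
        ∀ F : MvPolynomial (Fin 2) ℤ, F.totalDegree ≤ k → (∀ m, |F.coeff m| ≤ k) →
          (∃ t : ℂ, Irreducible (MvPolynomial.map (Int.castRingHom ℂ) F - MvPolynomial.C t)) →
          ∀ m : ℤ, |(m : ℝ) - (MvPolynomial.eval (fun i =>
              ⌊α (φ i) * f (φ i) ((p : ℝ) + σ i) + (P i).eval (p : ℝ)⌋) F : ℤ)| ≤ κ * R Z →
            ∃ q : ℕ, q.Prime ∧ (q : ℝ) ≤ Z ^ ε ∧ (q : ℤ) ∣ m := by
  have hSV : ∀ j, Pool.Agent.N542.PP.SV (c j) (fun k => iteratedDeriv k (f j)) := by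
    intro j
    refine ⟨?_, ?_, ?_⟩
    · simpa only [iteratedDeriv_zero] using (hf j).1
    · intro k
      filter_upwards [(hf j).2.1 k] with t ht
      rw [iteratedDeriv_succ]
      exact ht.hasDerivAt
    · intro k
      have h1 := (hf j).2.2 k
      rw [Pool.Agent.N542.PP.fall]
      simpa only [iteratedDeriv_zero] using h1
  obtain ⟨κ, δ, hκ, hδ, h⟩ := Pool.Agent.N542.PT.transfer (by norm_num) c u
    (fun j k => iteratedDeriv k (f j)) hSV hcn φ σ hφσ hφ hv
    (fun F : Pool.Agent.L7h72.NQ.NCk k => F.1) (Pool.Agent.L7h72.NQ.crit_NC k) D d b hd hb ε hε hε1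
  refine ⟨κ, δ, hκ, hδ, ?_⟩
  filter_upwards [h] with Z hZ
  intro α P hα hP
  obtain ⟨G, hG, h2⟩ := hZ α P hα hP
  refine ⟨G, hG, fun p hp => ?_⟩
  obtain ⟨h3, h4, h5, h6, h7⟩ := h2 p hp
  refine ⟨h3, h4, h5, h6, fun F hF1 hF2 hF3 m hm => ?_⟩
  exact h7 ⟨F, hF1, hF2, hF3⟩ m hm

/-- `t ^ c` plus a combination of lower real powers is smoothly varying with index `c`. -/
theorem smoothlyVarying_genPoly (c : ℝ) (n : ℕ) (a b : Fin n → ℝ) (hb : ∀ i, b i < c) :
    SmoothlyVarying c (fun t => t ^ c + ∑ i, a i * t ^ b i) :=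
  Pool.Agent.N542.PB.genPoly_sv c n a b hb

end Pool.Agent.Results.MP_3bc45c_nt.NoncompositeSmoothPrimes
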