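import Pool.Agent.L7h5.PG.Main

set_option autoImplicit false

/-!
# The polynomial van der Waerden theorem along all sums of consecutive gaps, up to the record scale

Let `f(x) = log x (log₂ x)² log₄ x / (log₃ x)²`, the size of the largest gaps between consecutive
primes that are known to occur up to `x`.  Let `P_1, …, P_N` be polynomial maps without constant
term from `ℤ^k` to `ℤ^e` and let `ℤ^e` be coloured with `K` colours.  For every scale `H` with
`1 ≤ H ≤ c f(x)` there are at least `x^(7/8)` clusters of `m + 1` consecutive primes up to `x` that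
follow a gap of size at least `c f(x)`, whose gaps `d_1, …, d_m` are between `H` and `C H`, such
that ALL the vectors

`s = (∑_(i ∈ F_1) d_i, …, ∑_(i ∈ F_k) d_i)`, `∅ ≠ F_1 < F_2 < … < F_k ⊆ {1, …, m}`,

are return times of the colouring: the points `a` for which `a, a + P_1(s), …, a + P_N(s)` have the
same colour have upper Banach density at least `η`.  The constants `η`, `c`, `C` and `x₀` depend
only on `k`, `m`, `K`, `N` and the degree, not on the dimension `e`, on the coefficients of the
polynomials or on the colouring.  With `H = c f(x)` all the `m + 1` gaps have record size.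

For example (`k = 2`, `m = 2`): for every finite colouring of the integers there are `x^(7/8)` pairs
of consecutive gaps `d, d'` of record size such that `a`, `a + d²`, `a + d d'` and `a + d'^3` have
the same colour for a set of integers `a` of positive density.

The polynomials may also have real coefficients: then `P_j(s)` is replaced by the nearest integral
vector, and it is within `ε` of it, provided that all but a bounded number of the coordinates of the
`P_j` take integral values at the integral points.  For example `α d²` and `β d d'` are within `ε` of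
an integer, uniformly in `α` and `β`.

Method.  The polynomial van der Waerden theorem along finite sums with the uniformity of
`Pool.Agent.TH956.ipvdw` (helper956) in the multidimensional form along increasing blocks, with
positive density (`Pool.Agent.Y898.Den.returns`, helper898); the Milliken-Taylor theorem makes all the
increasing sums of a cluster return times (`Pool.Agent.Y898.PolyGaps.gaps_of_blocks`, helper898),
where the clusters come from the Maynard-Tao theorem inside the record windows of helper101, helper709
and of the record sieve of helper256, helper312 and helper362.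
-/

namespace Pool.Agent.Results.MP_3bc45c_nt.PolynomialReturnTimes

/-- The record scale `f(x) = log x (log₂ x)² log₄ x / (log₃ x)²` (iterated natural logarithms). -/
noncomputable def f (x : ℝ) : ℝ :=
  Real.log x * (Real.log (Real.log x)) ^ 2 * Real.log (Real.log (Real.log (Real.log x))) /
    (Real.log (Real.log (Real.log x))) ^ 2

/-- The `i`-th prime, numbered from `p 0 = 2`. -/
noncomputable def p (i : ℕ) : ℕ := Nat.nth Nat.Prime i

/-- The gap after the `i`-th prime. -/
noncomputable def d (i : ℕ) : ℤ := (p (i + 1) : ℤ) - p i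

/-- The primes `p_n, …, p_(n+m)` are at most `x`, the `m` gaps between them are at least `H` and at
most `C H`, and the gap before `p_n` is at least `c f(x)`. -/
def Cluster (c C x H : ℝ) (m n : ℕ) : Prop :=
  0 < n ∧ (p (n + m) : ℝ) ≤ x ∧ c * f x ≤ (d (n - 1) : ℝ) ∧
    ∀ i < m, H ≤ (d (n + i) : ℝ) ∧ (d (n + i) : ℝ) ≤ C * H

/-- The vector `s` is a tuple of increasing sums of the `m` gaps after `p_n`: its coordinates are the
sums of the gaps over nonempty sets `F_1 < … < F_k` of indices below `m`. -/
def IncreasingSums (k m n : ℕ) (s : Fin k → ℤ) : Prop :=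
  ∃ F : Fin k → Finset (Fin m), (∀ l, (F l).Nonempty) ∧
    (∀ l l', l < l' → ∀ i ∈ F l, ∀ j ∈ F l', i < j) ∧ ∀ l, s l = ∑ i ∈ F l, d (n + i)

/-- There are arbitrarily large cubes `x + [0, N)^e` in which `A` has density at least `δ`; this
holds if the upper Banach density of `A` is greater than `δ`, and implies that it is at least `δ`. -/
def UpperDensity {e : ℕ} (A : Set (Fin e → ℤ)) (δ : ℝ) : Prop :=
  ∀ L : ℕ, ∃ N : ℕ, L ≤ N ∧ ∃ x : Fin e → ℤ,
    δ * (N : ℝ) ^ e ≤ (Set.ncard {v | v ∈ A ∧ ∀ i, x i ≤ v i ∧ v i < x i + N} : ℝ)

/-- The value at the integral point `s` of the coordinate `i` of the polynomial map `P`. -/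
noncomputable def val {k e : ℕ} (P : Fin e → MvPolynomial (Fin k) ℝ) (s : Fin k → ℤ) (i : Fin e) :
    ℝ := MvPolynomial.eval (fun l => (s l : ℝ)) (P i)

/-- The polynomial map `P` has degree at most `D` and no constant term. -/
def Admissible {k e : ℕ} (D : ℕ) (P : Fin e → MvPolynomial (Fin k) ℝ) : Prop :=
  ∀ i, (P i).totalDegree ≤ D ∧ (P i).coeff 0 = 0

/-- **Polynomial return times along all increasing sums of consecutive gaps.**  For all `k`, `m`,
`K`, `N`, `D`, `s₀` and `ε > 0` there is `η > 0` and there are `c > 0`, `C` and `x₀` such that for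
all `x ≥ x₀` and all `H` with `1 ≤ H ≤ c f(x)`, for all `N` polynomial maps `P_j : ℝ^k → ℝ^e` of
degree at most `D` without constant term, all but at most `s₀` of whose coordinates are integral at
the integral points, and for all colourings `χ` of `ℤ^e` with `K` colours, there are at least
`x^(7/8)` blocks `p_n, …, p_(n+m)` of consecutive primes up to `x`, with all `m` gaps between `H` and
`C H` and the gap before `p_n` at least `c f(x)`, such that for every tuple `s` of increasing sums of
the gaps the numbers `P_j(s)_i` are within `ε` of integers and the set of the points `a` such that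
`a` and all the points `a + [P_j(s)]` (nearest integers) have the same colour has upper Banach
density at least `η`. -/
theorem result (k m K N D s₀ : ℕ) (ε : ℝ) (hε : 0 < ε) : ∃ η : ℝ, 0 < η ∧
    ∃ c C : ℝ, 0 < c ∧ ∃ x₀ : ℝ, ∀ x : ℝ, x₀ ≤ x → ∀ H : ℝ, 1 ≤ H → H ≤ c * f x →
    ∀ (e : ℕ) (P : Fin N → Fin e → MvPolynomial (Fin k) ℝ), (∀ j, Admissible D (P j)) →
    (∃ S : Finset (Fin e), S.card ≤ s₀ ∧
      ∀ i, i ∉ S → ∀ (j : Fin N) (v : Fin k → ℤ), ∃ u : ℤ, val (P j) v i = u) →
    ∀ χ : (Fin e → ℤ) → Fin K,
    x ^ (7 / 8 : ℝ) ≤ (Set.ncard {n : ℕ | Cluster c C x H m n ∧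
      ∀ s : Fin k → ℤ, IncreasingSums k m n s →
        (∀ j i, |val (P j) s i - round (val (P j) s i)| < ε) ∧
        UpperDensity {a : Fin e → ℤ | ∀ j, χ (fun i => a i + round (val (P j) s i)) = χ a} η} :
          ℝ) := by
  obtain ⟨η, hη, c, C, hc, -, h⟩ := Pool.Agent.L7h5.PG.poly_sums k m K N D s₀ ε hε
  obtain ⟨x₀, hx₀⟩ := Filter.eventually_atTop.1 h
  refine ⟨η, hη, c, C, hc, x₀, fun x hx H hH hHc e P hP hS χ => ?_⟩
  obtain ⟨S, hS1, hS2⟩ := hS
  refine (hx₀ x hx H hH hHc e P hP S hS1 hS2 χ).trans ?_
  rw [Nat.cast_le]
  refine Set.ncard_le_ncard ?_ ?_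
  · rintro n ⟨h1, h2, h3, h4, h5⟩
    refine ⟨⟨h1, h2, ?_, fun i hi => ?_⟩, ?_⟩
    · unfold d p
      rw [Nat.sub_add_cancel h1]
      push_cast
      exact h3
    · unfold d p
      push_cast
      exact h4 i hi
    · rintro s ⟨F, hF, hFF, hs⟩
      have h6 := h5 F hF hFF
      have h7 : (fun l => ((∑ t ∈ F l, ((Nat.nth Nat.Prime (n + t + 1) : ℤ) -
          Nat.nth Nat.Prime (n + t)) : ℤ) : ℝ)) = fun l => (s l : ℝ) := by
        funext l
        rw [hs l]
        rfl
      simp only [h7] at h6
      exact h6
  · refine (Set.finite_Iic ⌊x⌋₊).subset ?_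
    rintro n ⟨⟨-, h1, -⟩, -⟩
    refine Nat.le_floor (le_trans ?_ h1)
    have h2 : n + m ≤ Nat.nth Nat.Prime (n + m) :=
      (Nat.nth_strictMono Nat.infinite_setOfPred_prime).le_apply
    exact_mod_cast (Nat.le_add_right n m).trans h2

end Pool.Agent.Results.MP_3bc45c_nt.PolynomialReturnTimes
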