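import Pool.Agent.L7h45.PR.Main

set_option autoImplicit false

/-! # Large prime gaps around the values of arbitrary polynomials at prime numbers

Let `f(x) = log x log₂ x log₄ x / (log₃ x)²` (Rankin's scale for prime gaps, up to a constant). For every
finite set `F` of nonconstant polynomials with integer coefficients, of any degrees, there are `c > 0`
and `K` such that for all large `X` at least `X^(9/10)` primes `n` in `(X, X^K]` have the following
property: for all `Q ∈ F` at the same time every integer within `c f(X)` of `Q(n)` is a multiple of `n`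
or has a prime factor which is at most `(log X)^K`; and no prime other than `n` is within `c f(X)` of
`Q(n)`.

So far this was known for the powers `n^k` (Ford, Heath-Brown and Konyagin; Maier and Rassias with prime
`n`) and for quadratic polynomials.  Proof: `n ≡ 1` modulo the small primes and `n ≡ m` modulo the medium
ones, where `m` is a fixed integer with `Q(m) ≠ Q(1)` for all `Q ∈ F`; this kills all but a few
shifts `k`, and each remaining `Q(n) + k` is made divisible by a prime of its own, of size
`(log X)^O(1)`. Such primes exist in abundance for all polynomials: a polynomial of degree `d` has at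
most `d` residue classes of zeros modulo `p^(j+1)` in the sense of `lead_dvd` (divided differences), so the
product of its values at the integers up to `(log X)^A` has many large prime divisors; no information on
the Galois group or the discriminant of `Q + k` is needed. A prime `n` in the resulting residue class comes
from a theorem of Linnik's type for the moduli which are not divisible by one exceptional modulus.
-/

namespace Pool.Agent.Results.MP_3bc45c_nt.PolynomialValuesAtPrimes

open Polynomial

/-- Rankin's scale `log x log₂ x log₄ x / (log₃ x)²` (iterated natural logarithms). -/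
noncomputable def f (x : ℝ) : ℝ :=
  Real.log x * Real.log (Real.log x) * Real.log (Real.log (Real.log (Real.log x))) /
    (Real.log (Real.log (Real.log x))) ^ 2

/-- For every finite set `F` of nonconstant polynomials with integer coefficients there are `c > 0`, `K`
and `X₀` such that for `X ≥ X₀` there are at least `X^(9/10)` primes `n` with `X < n ≤ X^K` such that for
every `Q ∈ F` every integer `m` with `|m - Q(n)| ≤ c f(X)` is divisible by `n` or by a prime
`p ≤ (log X)^K`, and every prime `r ≠ n` satisfies `|r - Q(n)| > c f(X)`. -/
theorem result (F : Finset ℤ[X]) (hF : ∀ Q ∈ F, 1 ≤ Q.natDegree) :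
    ∃ c : ℝ, 0 < c ∧ ∃ K : ℕ, ∃ X₀ : ℝ, ∀ X : ℝ, X₀ ≤ X →
      ∃ N : Finset ℕ, X ^ (9 / 10 : ℝ) ≤ (N.card : ℝ) ∧
        ∀ n ∈ N, n.Prime ∧ X < (n : ℝ) ∧ (n : ℝ) ≤ X ^ K ∧
          ∀ Q ∈ F, (∀ m : ℤ, |(m : ℝ) - ((Q.eval (n : ℤ) : ℤ) : ℝ)| ≤ c * f X → (n : ℤ) ∣ m ∨
            ∃ p : ℕ, p.Prime ∧ (p : ℝ) ≤ Real.log X ^ K ∧ (p : ℤ) ∣ m) ∧
          ∀ r : ℕ, r.Prime → r ≠ n →
            c * f X < |(r : ℝ) - ((Q.eval (n : ℤ) : ℤ) : ℝ)| :=
  Pool.Agent.L7h45.PR.main F hF

end Pool.Agent.Results.MP_3bc45c_nt.PolynomialValuesAtPrimes
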